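import Pool.Agent.H90.STE.Stmts
import Pool.Agent.H44.STK.CN2

/-!
# Conservation of differences, second inequality (random time)
-/

set_option autoImplicit false

namespace Pool.STE

open Finset Real
open Pool.Agent.H49.Ent Pool.Agent.H32.Dense Pool.STK Pool.KA

namespace CB

/-- Differences are conserved. -/
lemma zT_near {m J : ℕ} (F : Fam m J) {k r : ℕ} (hkJ : k ≤ J) {w : F.Ω × F.Ω}
    (hw : 0 < dbl F.p (bT F k r) w) (i : Fin m) :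
    |((F.X ((r + 1) * k) w.2 i - F.X ((r + 1) * k) w.1 i -
      zT F k ((r + 1) * k) w i : ℤ) : ℝ)| ≤ 3 := by
  have hb : bT F k r w.1 = bT F k r w.2 := dbl_eq F.isLaw.nonneg hw
  have hd : fl (r * k) (F.d w.1) = fl (r * k) (F.d w.2) := by
    unfold bT Fam.L at hb
    simp only [Prod.mk.injEq] at hb
    exact hb.1.2
  have hT : F.T w.1 = F.T w.2 := by
    unfold bT Fam.W at hb
    simp only [Prod.mk.injEq] at hb
    exact hb.2.1
  have h3 := CN2.abs_lt_of_fl hd i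
  rw [abs_lt] at h3
  have hpow : (2 : ℝ) ^ ((r + 1) * k) = 2 ^ (r * k) * 2 ^ k := by
    rw [add_mul, one_mul, pow_add]
  have hk : (0 : ℝ) < 2 ^ k := by positivity
  have hJ : (2 : ℝ) ^ J = 2 ^ k * 2 ^ (J - k) := by
    rw [← pow_add]; congr 1; omega
  have hK : (0 : ℝ) < 2 ^ (J - k) := by positivity
  -- the time after the beginning of the window
  set τ : ℝ := (F.T w.2 : ℝ) / 2 ^ J - ((F.T w.2 / 2 ^ (J - k) : ℕ) : ℝ) / 2 ^ k with hτ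
  have hdm : (F.T w.2 : ℝ) = 2 ^ (J - k) * ((F.T w.2 / 2 ^ (J - k) : ℕ) : ℝ) +
      ((F.T w.2 % 2 ^ (J - k) : ℕ) : ℝ) := by
    exact_mod_cast (Nat.div_add_mod (F.T w.2) (2 ^ (J - k))).symm
  have hmod : ((F.T w.2 % 2 ^ (J - k) : ℕ) : ℝ) ≤ 2 ^ (J - k) := by
    exact_mod_cast (Nat.mod_lt (F.T w.2) (by positivity : 0 < 2 ^ (J - k))).le
  have hmod0 : (0 : ℝ) ≤ ((F.T w.2 % 2 ^ (J - k) : ℕ) : ℝ) := Nat.cast_nonneg _
  have hτ' : 2 ^ k * τ = ((F.T w.2 % 2 ^ (J - k) : ℕ) : ℝ) / 2 ^ (J - k) := by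
    rw [hτ, hdm, hJ]
    field_simp
    ring
  have h4 : 0 ≤ 2 ^ k * τ := by rw [hτ']; positivity
  have h5 : 2 ^ k * τ ≤ 1 := by
    rw [hτ', div_le_one hK]
    exact hmod
  have h6 : |2 ^ k * τ * (2 ^ (r * k) * (F.d w.2 i - F.d w.1 i))| ≤ 1 := by
    rw [abs_mul, abs_of_nonneg h4]
    have := (abs_lt.mpr h3).le
    calc 2 ^ k * τ * |2 ^ (r * k) * (F.d w.2 i - F.d w.1 i)| ≤ 1 * 1 :=
          mul_le_mul h5 this (abs_nonneg _) (by norm_num)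
      _ = 1 := by norm_num
  rw [abs_le] at h6
  have e1 : F.X ((r + 1) * k) w.2 i = ⌊(2 : ℝ) ^ ((r + 1) * k) *
    (F.u w.2 i + (F.T w.2 : ℝ) / 2 ^ J * F.d w.2 i)⌋ := rfl
  have e2 : F.X ((r + 1) * k) w.1 i = ⌊(2 : ℝ) ^ ((r + 1) * k) *
    (F.u w.1 i + (F.T w.1 : ℝ) / 2 ^ J * F.d w.1 i)⌋ := rfl
  have e3 : zT F k ((r + 1) * k) w i = ⌊(2 : ℝ) ^ ((r + 1) * k) *
    ((F.u w.2 i + ((F.T w.2 / 2 ^ (J - k) : ℕ) : ℝ) / 2 ^ k * F.d w.2 i) -
      (F.u w.1 i + ((F.T w.1 / 2 ^ (J - k) : ℕ) : ℝ) / 2 ^ k * F.d w.1 i))⌋ := rfl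
  rw [e1, e2, e3, hT]
  set a := (2 : ℝ) ^ ((r + 1) * k) * (F.u w.2 i + (F.T w.2 : ℝ) / 2 ^ J * F.d w.2 i) with ha
  set b := (2 : ℝ) ^ ((r + 1) * k) * (F.u w.1 i + (F.T w.2 : ℝ) / 2 ^ J * F.d w.1 i) with hb
  set c := (2 : ℝ) ^ ((r + 1) * k) *
    ((F.u w.2 i + ((F.T w.2 / 2 ^ (J - k) : ℕ) : ℝ) / 2 ^ k * F.d w.2 i) -
      (F.u w.1 i + ((F.T w.2 / 2 ^ (J - k) : ℕ) : ℝ) / 2 ^ k * F.d w.1 i)) with hc
  have h7 : a - b - c = 2 ^ k * τ * (2 ^ (r * k) * (F.d w.2 i - F.d w.1 i)) := by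
    rw [ha, hb, hc, hpow, hτ]
    ring
  rw [← h7] at h6
  have fa := Int.floor_le a
  have fa' := Int.lt_floor_add_one a
  have fb := Int.floor_le b
  have fb' := Int.lt_floor_add_one b
  have fc := Int.floor_le c
  have fc' := Int.lt_floor_add_one c
  push_cast
  rw [abs_le]
  constructor <;> linarith [h6.1, h6.2]

end CB

/-- CB. -/
theorem cb : CBStmt := by
  intro m J F k r hkJ
  have hp := F.isLaw
  have hq := CN2.isLaw_dbl (bT F k r) hp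
  have e1 : CH F.p (F.X ((r + 1) * k)) (bT F k r) =
      CH (dbl F.p (bT F k r)) (fun w => F.X ((r + 1) * k) w.2) (fun w => w.1) := by
    rw [← CH_dbl_2 hp.nonneg (F.X ((r + 1) * k)) (fun ω => ω)]
    refine CH_congr hq.nonneg ?_ ?_ ?_ ?_
    · intro w w' _ _ h
      exact (Prod.ext_iff.mp h).1
    · intro w w' _ _ h
      exact (Prod.ext_iff.mp h).1
    · intro w w' _ _ h
      exact (Prod.ext_iff.mp h).2
    · intro w w' a b h
      refine Prod.ext ?_ h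
      have h' : w.1 = w'.1 := h
      show bT F k r w.2 = bT F k r w'.2
      rw [← dbl_eq hp.nonneg a, ← dbl_eq hp.nonneg b, h']
  rw [e1]
  refine (CH_le_add hq.nonneg _ (zT F k ((r + 1) * k)) _).trans ?_
  refine add_le_add le_rfl (CN2.CH_le_cc hq _ _ ?_)
  intro w w' a b h i
  simp only [Prod.mk.injEq] at h
  have h1 := CB.zT_near F hkJ a i
  have h2 := CB.zT_near F hkJ b i
  rw [h.1, h.2] at h1
  rw [abs_le] at h1 h2 ⊢
  push_cast at h1 h2 ⊢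
  constructor <;> linarith [h1.1, h1.2, h2.1, h2.2]

end Pool.STE
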